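import Pool.Agent.X322.Har13

set_option autoImplicit false

/-!
There is a graph property whose Harary polynomial is almost complete for `G(n,1/2)`.
-/

namespace Pool.Agent.Results.MP_916a8b_co.AlmostCompleteHarary

open Finset Filter Topology

/-- a class of finite graphs, given by its members on the vertex sets `Fin n` -/
abbrev GraphClass := ∀ n : ℕ, SimpleGraph (Fin n) → Prop

/-- a graph property: a class of graphs closed under isomorphism -/
def IsGraphProperty (P : GraphClass) : Prop :=
  ∀ (n : ℕ) (G H : SimpleGraph (Fin n)), Nonempty (G ≃g H) → P n G → P n H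

/-- the induced subgraph `G[B]`, its vertices relabelled increasingly by `Fin |B|` -/
def inducedOn {n : ℕ} (G : SimpleGraph (Fin n)) (B : Finset (Fin n)) :
    SimpleGraph (Fin B.card) := G.comap (B.orderEmbOfFin rfl)

/-- a partition of the vertex set into nonempty blocks -/
def IsPartition {n : ℕ} (π : Finset (Finset (Fin n))) : Prop :=
  (∀ B ∈ π, B.Nonempty) ∧ ∀ v, ∃! B, B ∈ π ∧ v ∈ B

open Classical in
/-- the number of `P`-partitions of `G` with exactly `i` blocks -/
noncomputable def partitionCount (P : GraphClass) {n : ℕ} (G : SimpleGraph (Fin n)) (i : ℕ) : ℕ :=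
  ((univ : Finset (Finset (Finset (Fin n)))).filter fun π =>
    IsPartition π ∧ (∀ B ∈ π, P B.card (inducedOn G B)) ∧ π.card = i).card

/-- the Harary polynomial; `descPochhammer ℤ i` is `k (k - 1) ⋯ (k - i + 1)` -/
noncomputable def hararyPolynomial (P : GraphClass) {n : ℕ} (G : SimpleGraph (Fin n)) :
    Polynomial ℤ :=
  ∑ i ∈ range (n + 1), (partitionCount P G i : Polynomial ℤ) * descPochhammer ℤ i

/-- every graph (of any order) with the same Harary polynomial is isomorphic to `G` -/
def IsUnique (P : GraphClass) {n : ℕ} (G : SimpleGraph (Fin n)) : Prop :=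
  ∀ (n' : ℕ) (H : SimpleGraph (Fin n')), hararyPolynomial P H = hararyPolynomial P G →
    Nonempty (H ≃g G)

open Classical in
/-- the number of labelled graphs on `Fin n` that are unique -/
noncomputable def uniqueCount (P : GraphClass) (n : ℕ) : ℕ :=
  (univ.filter fun G : SimpleGraph (Fin n) => IsUnique P G).card

/-- the Harary polynomial of `P` is almost complete for `G(n,1/2)` -/
def AlmostComplete (P : GraphClass) : Prop :=
  Tendsto (fun n : ℕ => (uniqueCount P n : ℝ) / 2 ^ n.choose 2) atTop (𝓝 1)

theorem result : ∃ P : GraphClass, IsGraphProperty P ∧ AlmostComplete P := by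
  obtain ⟨P, hP⟩ := Pool.Agent.X322.Har.main
  exact ⟨P.mem, P.iso_closed, hP⟩

end Pool.Agent.Results.MP_916a8b_co.AlmostCompleteHarary
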